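import Mathlib

set_option autoImplicit false

namespace Pool.Agent.Helper227

open Encodable

section prim
variable {α β γ : Type*} [Primcodable α] [Primcodable β] [Primcodable γ]

theorem PP.ex_mem {f : α → List β} {p : α → β → Prop} (hp : PrimrecRel p) (hf : Primrec f) :
    PrimrecPred fun a => ∃ b ∈ f a, p a b :=
  (PrimrecRel.exists_mem_list (R := fun b a => p a b) (hp.comp Primrec.snd Primrec.fst)).comp hf
    Primrec.id

theorem PP.all_mem {f : α → List β} {p : α → β → Prop} (hp : PrimrecRel p) (hf : Primrec f) :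
    PrimrecPred fun a => ∀ b ∈ f a, p a b :=
  (PrimrecRel.forall_mem_list (R := fun b a => p a b) (hp.comp Primrec.snd Primrec.fst)).comp hf
    Primrec.id

theorem PP.ex_lt {f : α → ℕ} {p : α → ℕ → Prop} (hp : PrimrecRel p) (hf : Primrec f) :
    PrimrecPred fun a => ∃ b < f a, p a b :=
  (PP.ex_mem hp (Primrec.list_range.comp hf)).of_eq (by simp)

theorem PP.all_lt {f : α → ℕ} {p : α → ℕ → Prop} (hp : PrimrecRel p) (hf : Primrec f) :
    PrimrecPred fun a => ∀ b < f a, p a b :=
  (PP.all_mem hp (Primrec.list_range.comp hf)).of_eq (by simp)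

theorem PP.const (P : Prop) : PrimrecPred fun _ : α => P := by
  classical
  exact Primrec.primrecPred (p := fun _ : α => P) (Primrec.const (decide P))

end prim

/-- Sigma-one predicates in normal form. -/
def S1 {α : Type*} [Primcodable α] (p : α → Prop) : Prop :=
  ∃ q : α → ℕ → Prop, PrimrecRel q ∧ (∀ a m n, m ≤ n → q a m → q a n) ∧ ∀ a, p a ↔ ∃ n, q a n

namespace S1

variable {α β γ : Type*} [Primcodable α] [Primcodable β] [Primcodable γ]

theorem of_eq {p q : α → Prop} (hp : S1 p) (h : ∀ a, p a ↔ q a) : S1 q :=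
  (funext fun a => propext (h a) : p = q) ▸ hp

theorem of_prim {p : α → Prop} (hp : PrimrecPred p) : S1 p :=
  ⟨fun a _ => p a, hp.comp Primrec.fst, fun _ _ _ _ h => h, fun _ => by simp⟩

theorem comp {p : β → Prop} {f : α → β} (hp : S1 p) (hf : Primrec f) : S1 fun a => p (f a) := by
  obtain ⟨q, hq, hm, he⟩ := hp
  exact ⟨fun a n => q (f a) n, hq.comp (hf.comp Primrec.fst) Primrec.snd,
    fun a m n h => hm _ _ _ h, fun a => he _⟩

theorem and {p q : α → Prop} (hp : S1 p) (hq : S1 q) : S1 fun a => p a ∧ q a := by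
  obtain ⟨p', hp', hpm, hpe⟩ := hp
  obtain ⟨q', hq', hqm, hqe⟩ := hq
  refine ⟨fun a n => p' a n ∧ q' a n, PrimrecPred.and hp' hq',
    fun a m n h ⟨h1, h2⟩ => ⟨hpm _ _ _ h h1, hqm _ _ _ h h2⟩, fun a => ?_⟩
  simp only [hpe, hqe]
  constructor
  · rintro ⟨⟨m, hm⟩, ⟨n, hn⟩⟩
    exact ⟨max m n, hpm _ _ _ (le_max_left _ _) hm, hqm _ _ _ (le_max_right _ _) hn⟩
  · rintro ⟨n, h1, h2⟩
    exact ⟨⟨n, h1⟩, ⟨n, h2⟩⟩

theorem or {p q : α → Prop} (hp : S1 p) (hq : S1 q) : S1 fun a => p a ∨ q a := by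
  obtain ⟨p', hp', hpm, hpe⟩ := hp
  obtain ⟨q', hq', hqm, hqe⟩ := hq
  refine ⟨fun a n => p' a n ∨ q' a n, PrimrecPred.or hp' hq',
    fun a m n h hh => hh.imp (hpm _ _ _ h) (hqm _ _ _ h), fun a => ?_⟩
  simp only [hpe, hqe]
  exact exists_or.symm

theorem ex {p : α → β → Prop} (hp : S1 fun x : α × β => p x.1 x.2) : S1 fun a => ∃ b, p a b := by
  obtain ⟨q, hq, hm, he⟩ := hp
  refine ⟨fun a n => ∃ k < n, ∃ b ∈ (decode (α := β) k).toList, q (a, b) n, ?_, ?_, ?_⟩
  · refine PP.ex_lt (α := α × ℕ) (p := fun x k => ∃ b ∈ (decode (α := β) k).toList, q (x.1, b) x.2)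
      ?_ Primrec.snd
    refine PP.ex_mem (α := (α × ℕ) × ℕ) (f := fun x => (decode (α := β) x.2).toList)
      (p := fun x b => q (x.1.1, b) x.1.2) ?_ ?_
    · exact hq.comp ((Primrec.fst.comp (Primrec.fst.comp Primrec.fst)).pair Primrec.snd)
        (Primrec.snd.comp (Primrec.fst.comp Primrec.fst))
    · exact Primrec.optionToList.comp (Primrec.decode.comp Primrec.snd)
  · rintro a m n h ⟨k, hk, b, hb, hq⟩
    exact ⟨k, lt_of_lt_of_le hk h, b, hb, hm _ _ _ h hq⟩
  · intro a
    constructor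
    · rintro ⟨b, hb⟩
      obtain ⟨n, hn⟩ := (he (a, b)).1 hb
      refine ⟨max n (encode b + 1), encode b, by omega, b, by simp, hm _ _ _ (le_max_left _ _) hn⟩
    · rintro ⟨n, k, _, b, _, hb⟩
      exact ⟨b, (he (a, b)).2 ⟨n, hb⟩⟩

theorem all_mem {p : α → β → Prop} {f : α → List β} (hp : S1 fun x : α × β => p x.1 x.2)
    (hf : Primrec f) : S1 fun a => ∀ b ∈ f a, p a b := by
  obtain ⟨q, hq, hm, he⟩ := hp
  refine ⟨fun a n => ∀ b ∈ f a, q (a, b) n, ?_, ?_, ?_⟩
  · refine PP.all_mem (α := α × ℕ) (p := fun x b => q (x.1, b) x.2) ?_ (hf.comp Primrec.fst)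
    exact hq.comp ((Primrec.fst.comp Primrec.fst).pair Primrec.snd)
        (Primrec.snd.comp Primrec.fst)
  · intro a m n h hh b hb
    exact hm _ _ _ h (hh b hb)
  · intro a
    have : ∀ L : List β, (∀ b ∈ L, p a b) ↔ ∃ n, ∀ b ∈ L, q (a, b) n := by
      intro L
      induction L with
      | nil => simp
      | cons c L ih =>
        simp only [List.mem_cons, forall_eq_or_imp, ih]
        have := he (a, c)
        simp only at this
        rw [this]
        constructor
        · rintro ⟨⟨m, hm'⟩, ⟨n, hn⟩⟩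
          exact ⟨max m n, hm _ _ _ (le_max_left _ _) hm', fun b hb => hm _ _ _ (le_max_right _ _) (hn b hb)⟩
        · rintro ⟨n, h1, h2⟩
          exact ⟨⟨n, h1⟩, ⟨n, h2⟩⟩
    exact this _

theorem all_lt {p : α → ℕ → Prop} {f : α → ℕ} (hp : S1 fun x : α × ℕ => p x.1 x.2)
    (hf : Primrec f) : S1 fun a => ∀ b < f a, p a b :=
  (all_mem hp (Primrec.list_range.comp hf)).of_eq (by simp)

theorem re {p : α → Prop} (hp : S1 p) : REPred p := by
  obtain ⟨q, ⟨hd, hq⟩, hm, he⟩ := hp
  have h1 : Partrec fun a : α => Nat.rfind fun n => Part.some (@decide (q a n) (hd (a, n))) := by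
    apply Partrec.rfind
    exact (Primrec.to_comp hq).partrec
  refine (h1.dom_re).of_eq fun a => ?_
  refine Nat.rfind_dom.trans ?_
  rw [he]
  simp

theorem of_re {p : α → Prop} (hp : REPred p) : S1 p := by
  obtain ⟨c, hc⟩ := Nat.Partrec.Code.exists_code.1 hp
  refine ⟨fun a n => (c.evaln n (encode a)).isSome, ?_, ?_, ?_⟩
  · refine Primrec.primrecPred (p := fun x : α × ℕ => ((c.evaln x.2 (encode x.1)).isSome : Prop)) ?_
    have : Primrec fun x : α × ℕ => (c.evaln x.2 (encode x.1)).isSome :=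
      Primrec.option_isSome.comp (Nat.Partrec.Code.primrec_evaln.comp
        ((Primrec.snd.pair (Primrec.const c)).pair (Primrec.encode.comp Primrec.fst)))
    simpa using this
  · intro a m n h hm
    rw [Option.isSome_iff_exists] at hm ⊢
    obtain ⟨y, hy⟩ := hm
    exact ⟨y, Nat.Partrec.Code.evaln_mono h hy⟩
  · intro a
    have h1 : (c.eval (encode a)).Dom ↔ p a := by
      rw [hc]
      simp [Part.assert]
    rw [← h1]
    constructor
    · intro h
      obtain ⟨y, hy⟩ := Part.dom_iff_mem.1 h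
      obtain ⟨k, hk⟩ := Nat.Partrec.Code.evaln_complete.1 hy
      exact ⟨k, Option.isSome_iff_exists.2 ⟨y, hk⟩⟩
    · rintro ⟨n, hn⟩
      obtain ⟨y, hy⟩ := Option.isSome_iff_exists.1 hn
      exact Part.dom_iff_mem.2 ⟨y, Nat.Partrec.Code.evaln_sound hy⟩

theorem iff_re {p : α → Prop} : S1 p ↔ REPred p := ⟨re, of_re⟩

theorem comp_computable {p : β → Prop} {f : α → β} (hp : S1 p) (hf : Computable f) :
    S1 fun a => p (f a) := of_re (hp.re.comp hf)

end S1

/-- A total Boolean function with Sigma-one graph is computable. -/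
theorem computable_of_graph {α : Type*} [Primcodable α] {f : α → Bool}
    (h : S1 fun x : α × Bool => f x.1 = x.2) : Computable f := by
  have h1 : S1 fun a => f a = true := h.comp (Primrec.id.pair (Primrec.const true))
  have h2 : S1 fun a => ¬ (f a = true) :=
    (h.comp (Primrec.id.pair (Primrec.const false))).of_eq (by simp)
  have h3 := ComputablePred.computable_iff_re_compl_re (p := fun a => f a = true)
  have h4 := (h3.2 ⟨h1.re, h2.re⟩).decide
  simpa using h4

end Pool.Agent.Helper227
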